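import Pool.Agent.H62.SR.Main

/-!
# The multicolour size-Ramsey number of a tree is at most `C r² (log r) β(T)`

Affirmative answer to question Q1 with the absolute constant `C = 2 ^ 35`.  The definitions are in
`Pool.Agent.H62.SR.Defs`.
-/

namespace Pool.Agent.Results.MP_366c56_co.TreeSizeRamsey

open Pool.Agent.H62.SR

/-- For every `r ≥ 2` and every tree `T` with at least two vertices and classes `V₁`, `V₁ᶜ` there is
a finite graph `G` with at most `2 ^ 35 * r ^ 2 * log r * β(T)` edges such that every colouring of the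
edges of `G` with `r` colours contains a monochromatic copy of `T`; in particular the `r`-colour
size-Ramsey number of `T` is at most `2 ^ 35 * r ^ 2 * log r * β(T)`. -/
theorem result (r : ℕ) (hr : 2 ≤ r) (V : Type) [Fintype V] [DecidableEq V] (T : SimpleGraph V)
    [DecidableRel T.Adj] (hT : T.IsTree) (hV : 2 ≤ Fintype.card V) (V₁ : Finset V)
    (hV₁ : IsBip T V₁) :
    (∃ (W : Type) (_ : Finite W) (G : SimpleGraph W), Arrows G T r ∧
      (G.edgeSet.ncard : ℝ) ≤ 2 ^ 35 * r ^ 2 * Real.log r * (beta T V₁ : ℝ)) ∧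
    (sizeRamsey r T : ℝ) ≤ 2 ^ 35 * r ^ 2 * Real.log r * (beta T V₁ : ℝ) :=
  main r hr V T hT hV V₁ hV₁

end Pool.Agent.Results.MP_366c56_co.TreeSizeRamsey
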